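import Mathlib
import Pool.Agent.H.MP_919a9a_lc.A

set_option autoImplicit false

namespace Pool.Agent.Results.MP_919a9a_lc.Homog

open Set Filter Topology Cardinal Pool.Agent.H.MP_5382b1_gt Pool.Agent.H.MP_919a9a_lc

/-- `E` is `(ℵ₁, k)`-entangled for every `k ≥ 1`; `false` plays the role of `0` in the type `t`. -/
def Entangled (E : Set ℝ) : Prop :=
  aleph 1 ≤ #E ∧ ∀ k : ℕ, 1 ≤ k → ∀ F : Set (Fin k → ℝ), #F = aleph 1 →
    (∀ a ∈ F, (∀ i, a i ∈ E) ∧ Function.Injective a) →
    (∀ a ∈ F, ∀ b ∈ F, a ≠ b → ∀ i j, a i ≠ b j) →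
    ∀ t : Fin k → Bool, ∃ a ∈ F, ∃ b ∈ F, a ≠ b ∧ ∀ i, (a i < b i ↔ t i = false)

/-- Any point can be moved to any other by a self-homeomorphism. -/
def Homogeneous (X : Type) [TopologicalSpace X] : Prop :=
  ∀ x y : X, ∃ h : X ≃ₜ X, h x = y

theorem result (hCH : continuum.{0} = aleph 1) : ∃ E : Set ℝ, Entangled E ∧ Homogeneous E := by
  classical
  obtain ⟨φ, φ1, φ2, φ3⟩ := emb
  obtain ⟨I, _, x, hI, x1, x2, x3⟩ := luzin hCH
  let G : Set V := {g | {m | g m = 1}.Finite}
  have hG : G.Countable := Pool.Agent.H.MP_7a28e0_gt.cfin 1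
  let E : Set V := {z | ∃ g ∈ G, ∃ t, z = g + x t}
  refine ⟨φ '' E, ⟨?_, fun k hk F hF h1 h2 t => ?_⟩, fun a b => ?_⟩
  · rw [← succ_aleph0, Order.succ_le_iff, aleph0_lt_mk_iff]
    exact Function.Injective.uncountable (f := fun t : I =>
      (⟨φ (x t), x t, ⟨0, by simp [G], t, by simp⟩, rfl⟩ : φ '' E))
      fun s t h => x1 (φ2 (congrArg Subtype.val h))
  · let R : (Fin k → V) × (Fin k → Fin k) → Set (Fin k → ℝ) := fun q => {a ∈ F | ∃ α : Fin k → I,
      InjOn α (range q.2) ∧ ∀ i, a i = φ (q.1 i + x (α (q.2 i)))}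
    have h3 : ¬ F.Countable := by
      rw [← le_aleph0_iff_set_countable, hF, not_le]
      exact aleph0_lt_aleph_one
    obtain ⟨⟨g, ρ⟩, hg, h4⟩ : ∃ q ∈ {g : Fin k → V | ∀ i, g i ∈ G} ×ˢ (univ : Set (Fin k → Fin k)),
        ¬ (R q).Countable := by
      by_contra h
      push Not at h
      refine h3 ((((countable_pi fun _ => hG).prod countable_univ).biUnion h).mono fun a ha => ?_)
      have h5 : ∀ i, ∃ g ∈ G, ∃ t, a i = φ (g + x t) := fun i => by
        obtain ⟨_, ⟨g, hg, t, rfl⟩, h⟩ := (h1 a ha).1 i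
        exact ⟨g, hg, t, h.symm⟩
      choose g hg α hα using h5
      have : Nonempty (Fin k) := ⟨⟨0, hk⟩⟩
      have h6 : ∀ i, α (Function.invFun α (α i)) = α i := fun i => Function.invFun_eq ⟨i, rfl⟩
      refine mem_iUnion₂.2 ⟨(g, fun i => Function.invFun α (α i)), ⟨hg, trivial⟩, ha, α, ?_,
        fun i => by rw [h6]; exact hα i⟩
      rintro _ ⟨i, rfl⟩ _ ⟨j, rfl⟩ h
      simp only [h6] at h
      simp only [h]
    let Z : Set (Fin k → V) := {z | (fun i => φ (g i + z (ρ i))) ∈ F}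
    obtain ⟨u, hu⟩ := x3 k (closure Z) isClosed_closure
    obtain ⟨a, ⟨ha, α, α1, α2⟩, h5⟩ : ∃ a ∈ R (g, ρ), ∀ i, ∀ β ≤ u, a i ≠ φ (g i + x β) := by
      by_contra h
      push Not at h
      have h6 : (Iic u).Countable := by
        rw [← Iio_insert]
        exact (x2 u).insert u
      refine h4 ((countable_iUnion fun i : Fin k => h6.biUnion (t := fun β _ =>
        {a ∈ F | a i = φ (g i + x β)}) fun β _ => Set.Subsingleton.countable ?_).mono fun a ha => ?_)
      · intro a ha b hb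
        by_contra h
        exact h2 a ha.1 b hb.1 h i i (ha.2.trans hb.2.symm)
      · obtain ⟨i, β, h7, h8⟩ := h a ha
        exact mem_iUnion.2 ⟨i, mem_iUnion₂.2 ⟨β, h7, ha.1, h8⟩⟩
    obtain ⟨O, hO, hOZ⟩ := hu (Finset.univ.image ρ) α (by simpa using α1) (fun j hj => by
      obtain ⟨i, -, rfl⟩ := Finset.mem_image.1 hj
      exact not_le.1 fun h => h5 i _ h (α2 i)) fun z => subset_closure (by
        have : (fun i => φ (g i + (Finset.univ.image ρ).piecewise (x ∘ α) z (ρ i))) = a :=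
          funext fun i => by rw [Finset.piecewise_eq_of_mem _ _ _ (by simp), α2 i]; rfl
        change _ ∈ F
        rwa [this])
    have h6 : ∀ j, ∃ v ∈ O j, ∃ w ∈ O j, ∀ i, ρ i = j →
        if t i then φ (g i + w) < φ (g i + v) else φ (g i + v) < φ (g i + w) := by
      intro j
      obtain ⟨h7, y, hy⟩ := hO j
      have h8 : ∀ c, ∀ᶠ n in atTop, Function.update y n c ∈ O j := fun c => by
        refine Tendsto.eventually (tendsto_pi_nhds.2 fun m => tendsto_const_nhds.congr' ?_)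
          (h7.mem_nhds hy)
        filter_upwards [eventually_gt_atTop m] with n hn
        rw [Function.update_of_ne hn.ne]
      have h9 : ∀ᶠ n in atTop, ∀ i, g i n = 0 := eventually_all.2 fun i => by
        rw [← Nat.cofinite_eq_atTop]
        exact (hg.1 i).subset fun n hn => by_contra fun h =>
          hn (Pool.Agent.H.MP_999952_gt.z01 _ h)
      obtain ⟨N, hN⟩ := eventually_atTop.1 ((h8 0).and ((h8 1).and h9))
      obtain ⟨n, hn, h10⟩ := φ3 k (fun i => g i + y) {i | ρ i = j} t N fun i hi i' hi' h => by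
        refine (h1 a ha).2 ?_
        rw [α2, α2]
        simp only [show ρ i = j from hi, show ρ i' = j from hi', add_right_cancel h]
      obtain ⟨k1, k2, k3⟩ := hN n hn
      refine ⟨_, k1, _, k2, fun i hi => h10 i hi _ _ (fun m hm => ?_) (fun m hm => ?_) ?_ ?_⟩
      · simp [hm.ne]
      · simp [hm.ne]
      · simp [k3]
      · simp [k3]
    choose v hv w hw h7 using h6
    have h8 : IsOpen {p : (Fin k → V) × (Fin k → V) | ∀ i,
        if t i then φ (g i + p.2 (ρ i)) < φ (g i + p.1 (ρ i))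
        else φ (g i + p.1 (ρ i)) < φ (g i + p.2 (ρ i))} := by
      rw [ofPred_forall]
      refine isOpen_iInter_of_finite fun i => ?_
      split_ifs <;> exact isOpen_lt (by fun_prop) (by fun_prop)
    have h9 : (v, w) ∈ closure (Z ×ˢ Z) := by
      rw [closure_prod_eq]
      exact ⟨hOZ v hv, hOZ w hw⟩
    obtain ⟨⟨p, q⟩, h10, hp, hq⟩ := mem_closure_iff.1 h9 _ h8 fun i => h7 _ i rfl
    refine ⟨_, hp, _, hq, fun h => ?_, fun i => ?_⟩
    · have h11 := h10 ⟨0, hk⟩
      have h12 := congrFun h ⟨0, hk⟩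
      split_ifs at h11
      exacts [h11.ne h12.symm, h11.ne h12]
    · have h11 := h10 i
      cases h : t i <;> simp only [h, Bool.false_eq_true, if_true, if_false] at h11
      · simpa using h11
      · simpa using h11.le
  · let e : E ≃ₜ φ '' E := (φ1.isClosedEmbedding φ2).isEmbedding.homeomorphImage E
    obtain ⟨h, hh⟩ := homog E (by
      rintro _ ⟨g, hg, t, rfl⟩ y hy
      refine ⟨y + x t, (Finite.union hg hy).subset fun n hn => ?_, t,
        by rw [add_assoc, two, add_zero]⟩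
      have : ∀ a b c : ZMod 2, a + c = 1 → b = 1 ∨ a ≠ b + c := by decide
      exact this _ _ _ hn) (e.symm a) (e.symm b)
    exact ⟨(e.symm.trans h).trans e, by simp [hh]⟩

end Pool.Agent.Results.MP_919a9a_lc.Homog
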